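import Pool.Agent.Helper8.DP.ESheet

/-! Row APP (MP_3a8adc_an, project DP). -/

set_option autoImplicit false

open scoped ContDiff NNReal
open Set Filter Topology

universe u v

namespace Pool.Agent.Helper8.DP

open Pool.Agent.Helper94.UF

theorem st_APP : ST_APP.{u, v} := by
  intro Q _ _ _ r n h Γ K f L hL hf ε hε
  have hd : IsDirectedOrder (Ret r) := Ret.directed h.1 h.2
  have hne : Nonempty (Ret r) := Ret.nonempty h.1 h.2
  obtain ⟨s, h1, h2, h3⟩ := conclusion (X := C(Q, ℝ)) (Y := C(Q, ℝ)) (⊤ : ℕ∞) le_top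
    (Ret.sys h.1 h.2) K (ContinuousLinearMap.id ℝ _) 1 one_pos
    (fun y => by rw [one_mul]; exact le_refl _) f ⟨L, hL⟩
    (LipschitzWith.of_dist_le_mul fun x y => by
      rw [Real.dist_eq, dist_eq_norm]
      exact hf x y) ε hε
  refine ⟨s, h1, fun y y' => ?_, h3⟩
  have h4 := h2.dist_le_mul y y'
  rw [Real.dist_eq, dist_eq_norm] at h4
  exact h4

end Pool.Agent.Helper8.DP

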